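import Mathlib
import Pool.Agent.H44.GQ1

namespace Pool.Agent.Results.MP_3edecc_lc.Q1True

open Pool.Agent.H44.GP

theorem result : ∃ C : ℝ, ∀ n : ℕ, 1 ≤ n → ∀ X : Ind n,
    expT1 X ≤ ENNReal.ofReal (C * ((n : ℝ) ^ 2 + n * size X)) :=
  ⟨200000, fun _ hn X => main1 hn X⟩

end Pool.Agent.Results.MP_3edecc_lc.Q1True
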